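import Pool.Agent.H93.CP.Targets

/-! Row SCH of the board `cpt_modules`. -/

set_option autoImplicit false

open Set Filter Topology

namespace Pool.Agent.H67.CP

open Pool.Agent.H93.CP

theorem pf_SCH : T_SCH := by
  intro G X _ _ _ _ H
  obtain ⟨b, hbc, hbe, hb⟩ := TopologicalSpace.exists_countable_basis H.Y
  have hbn : b.Nonempty := by
    obtain ⟨y⟩ := H.nY
    obtain ⟨t, ht, -, -⟩ := hb.exists_subset_of_mem_open (mem_univ y) isOpen_univ
    exact ⟨t, ht⟩
  obtain ⟨f, hf⟩ := hbc.exists_eq_range hbn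
  have hfb : ∀ i, f i ∈ b := fun i => by
    rw [hf]
    exact ⟨i, rfl⟩
  obtain ⟨e, he⟩ := exists_surjective_nat H.D
  let F : ℕ → Set H.D := fun n => Nat.rec ({1} : Set H.D)
    (fun n s => s ∪ Set.image2 (fun a b => a * b) s s ∪ {e n}) n
  have hF : ∀ n, F (n + 1) = F n ∪ Set.image2 (fun a b => a * b) (F n) (F n) ∪ {e n} :=
    fun _ => rfl
  refine ⟨⟨fun n => Nat.casesOn n univ f, ?_, ?_, rfl, ?_, F, ?_, ?_, ?_, ?_⟩⟩
  · intro i
    cases i with
    | zero => exact isOpen_univ
    | succ i => exact hb.isOpen (hfb i)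
  · intro i
    cases i with
    | zero => exact univ_nonempty
    | succ i =>
      change (f i).Nonempty
      rw [Set.nonempty_iff_ne_empty]
      intro h
      apply hbe
      rw [← h]
      exact hfb i
  · intro y O hO hy
    obtain ⟨t, ht, hyt, htO⟩ := hb.exists_subset_of_mem_open hy hO
    rw [hf] at ht
    obtain ⟨i, rfl⟩ := ht
    exact ⟨i + 1, hyt, htO⟩
  · intro n
    induction n with
    | zero => exact finite_singleton _
    | succ n ih =>
      rw [hF]
      exact (ih.union (ih.image2 _ ih)).union (finite_singleton _)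
  · intro n
    induction n with
    | zero => exact rfl
    | succ n ih =>
      rw [hF]
      exact Or.inl (Or.inl ih)
  · intro n a b ha hb'
    rw [hF]
    exact Or.inl (Or.inr ⟨a, ha, b, hb', rfl⟩)
  · intro d
    obtain ⟨n, rfl⟩ := he d
    refine ⟨n + 1, ?_⟩
    rw [hF]
    exact Or.inr rfl

end Pool.Agent.H67.CP
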