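import Pool.Agent.H93.CP.Targets

/-! Rows XOR, HOM of the board `cpt_modules`. -/

set_option autoImplicit false

open Set Filter Topology

namespace Pool.Agent.H67.CP

open Pool.Agent.H93.CP

private theorem xor_cont :
    Continuous (fun q : (ℕ → Bool) × (ℕ → Bool) => fun i => xor (q.2 i) (q.1 i)) := by
  refine continuous_pi fun i => ?_
  have h1 : Continuous (fun b : Bool × Bool => xor b.1 b.2) := continuous_of_discreteTopology
  have h2 : Continuous (fun q : (ℕ → Bool) × (ℕ → Bool) => q.2 i) :=
    (continuous_apply i).comp continuous_snd
  have h3 : Continuous (fun q : (ℕ → Bool) × (ℕ → Bool) => q.1 i) :=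
    (continuous_apply i).comp continuous_fst
  exact h1.comp (h2.prodMk h3)

private def xorH (p : ℕ → Bool) : (ℕ → Bool) ≃ₜ (ℕ → Bool) where
  toFun x := fun i => xor (x i) (p i)
  invFun x := fun i => xor (x i) (p i)
  left_inv x := by
    funext i
    simp
  right_inv x := by
    funext i
    simp
  continuous_toFun := xor_cont.comp (continuous_const.prodMk continuous_id)
  continuous_invFun := xor_cont.comp (continuous_const.prodMk continuous_id)

theorem pf_XOR (hHCO : T_HCO) : T_XOR := by
  refine ⟨fun p => ⟨xorH p, ContinuousMap.const _ ()⟩, ?_, ?_⟩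
  · refine hHCO _ _ _ _ ?_ ?_ ?_
    · exact xor_cont
    · exact xor_cont
    · exact continuous_const
  · intro p
    funext i
    change xor false (p i) = p i
    simp

theorem pf_HOM (hHCO : T_HCO) : T_HOM := by
  intro Γ K _ _ _ _ _ _ _ hc
  have h1 : ∀ γ : Γ, Continuous (fun y : K => γ • y) := fun γ =>
    hc.comp (continuous_const.prodMk continuous_id)
  let ρ : Γ →* HC K Unit :=
    { toFun := fun γ =>
        ⟨{ toFun := fun y => γ • y
           invFun := fun y => γ⁻¹ • y
           left_inv := fun y => inv_smul_smul γ y
           right_inv := fun y => smul_inv_smul γ y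
           continuous_toFun := h1 γ
           continuous_invFun := h1 γ⁻¹ }, ContinuousMap.const _ ()⟩
      map_one' := by
        ext y
        · exact one_smul Γ y
      map_mul' := by
        intro a b
        ext y
        · exact mul_smul a b y }
  refine ⟨ρ, ?_, fun γ y => rfl⟩
  refine hHCO _ _ _ _ ?_ ?_ ?_
  · exact hc
  · exact hc.comp ((continuous_inv.comp continuous_fst).prodMk continuous_snd)
  · exact continuous_const

end Pool.Agent.H67.CP
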